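import Mathlib

namespace Pool.Agent.Results.MP_f8a98e_co.Ratio

open Finset

/-- `i` (counted from 1) is a double descent of `w` -/
def DD {n : ℕ} (w : Equiv.Perm (Fin n)) (i : ℕ) : Prop :=
  ∃ h : 2 ≤ i ∧ i < n, w ⟨i - 1, by omega⟩ < w ⟨i - 2, by omega⟩ ∧ w ⟨i, h.2⟩ < w ⟨i - 1, by omega⟩

/-- number of permutations of `n` letters whose only double descent is `k` -/
noncomputable def dd (k n : ℕ) : ℕ := {w : Equiv.Perm (Fin n) | {i | DD w i} = {k}}.ncard

def Q (k : ℕ) (l : List ℕ) : Bool := (List.range 7).all fun i =>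
  (decide (2 ≤ i) && l.getD (i - 1) 0 < l.getD (i - 2) 0 && l.getD i 0 < l.getD (i - 1) 0) == (i == k)

theorem e (k : ℕ) (hk : k < 7) : dd k 7 = (List.range 7).permutations'.countP (Q k) := by
  let f : Equiv.Perm (Fin 7) → List ℕ := fun w => List.ofFn fun i => (w i : ℕ)
  have fi : f.Injective := fun v w h => Equiv.ext fun i => Fin.ext (congrFun (List.ofFn_injective h) i)
  have p := List.permutations_perm_permutations' (List.range 7)
  have nd := p.nodup_iff.1 (List.nodup_permutations _ List.nodup_range)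
  have im : univ.image f = (List.range 7).permutations'.toFinset := by
    refine eq_of_subset_of_card_le (fun l hl => ?_) ?_
    · obtain ⟨w, -, rfl⟩ := mem_image.1 hl
      exact List.mem_toFinset.2 (List.mem_permutations'.2 (Equiv.Perm.ofFn_comp_perm w Fin.val))
    · rw [card_image_of_injective _ fi, List.toFinset_card_of_nodup nd, ← p.length_eq,
        List.length_permutations]
      simp [Fintype.card_perm]
  rw [List.countP_eq_length_filter, ← List.toFinset_card_of_nodup (nd.filter _), List.toFinset_filter,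
    ← im, filter_image, card_image_of_injective _ fi, dd, ← Set.ncard_coe_finset]
  congr 1
  ext w
  have g : ∀ i < 7, (decide (2 ≤ i) && (f w).getD (i - 1) 0 < (f w).getD (i - 2) 0 &&
      (f w).getD i 0 < (f w).getD (i - 1) 0) = true ↔ DD w i := fun i hi => by
    interval_cases i <;> simp [DD, f, List.ofFn_succ]
  simp only [Set.ext_iff, Set.mem_ofPred_eq, Set.mem_singleton_iff, coe_filter, mem_univ, true_and, Q,
    List.all_eq_true, List.mem_range, beq_iff_eq]
  refine ⟨fun h i hi => Bool.eq_iff_iff.2 (by rw [g i hi, h i, beq_iff_eq]), fun h i => ?_⟩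
  by_cases c : i < 7
  · rw [← g i c, h i c, beq_iff_eq]
  · exact ⟨fun ⟨a, _⟩ => absurd a.2 c, fun a => by omega⟩

theorem d2 : dd 2 7 = 426 := by rw [e _ (by norm_num)]; decide +kernel
theorem d3 : dd 3 7 = 363 := by rw [e _ (by norm_num)]; decide +kernel
theorem d4 : dd 4 7 = 462 := by rw [e _ (by norm_num)]; decide +kernel
theorem d5 : dd 5 7 = 363 := by rw [e _ (by norm_num)]; decide +kernel

theorem result : ∃ n i : ℕ, 1 ≤ i ∧ (i : ℤ) < ⌈(n : ℚ) / 2⌉ - 1 ∧ Even i ∧ 0 < dd (i + 1) n ∧
    0 < dd (i + 3) n ∧ (dd i n : ℚ) / dd (i + 1) n < dd (i + 2) n / dd (i + 3) n := by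
  refine ⟨7, 2, by norm_num, by norm_num, by norm_num, ?_⟩
  simp only [d2, d3, d4, d5, Nat.reduceAdd]
  norm_num

end Pool.Agent.Results.MP_f8a98e_co.Ratio
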